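import Pool.Agent.N936.TC.Stm

/-! Leaf TC/CONN for helper936: the suspension is connected (helper219). -/

namespace Pool.Agent.N219.TC

open Set Topology Pool.Agent.N936.TC

theorem t_conn : Pool.Agent.N936.TC.S_CONN := by
  intro σ X _ Φ hM hT
  have hne : Nonempty X := ⟨Φ (fun _ => false, false, 0)⟩
  have hpre : PreconnectedSpace X := by
    rw [preconnectedSpace_iff_clopen]
    intro E hE
    have hpath : ∀ q i (s : I), Φ (q, i, s) ∈ E ↔ Φ (q, i, 0) ∈ E := by
      intro q i s
      have hcont : Continuous (fun s : I => Φ (q, i, s)) := hM.cont.comp (by fun_prop)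
      have hcl : IsClopen ((fun s : I => Φ (q, i, s)) ⁻¹' E) := hE.preimage hcont
      rcases isClopen_iff.mp hcl with h | h
      · have h1 : ∀ t : I, ¬ Φ (q, i, t) ∈ E := fun t ht => by
          have h2 : t ∈ ((fun s : I => Φ (q, i, s)) ⁻¹' E) := ht
          rw [h] at h2
          exact h2
        exact ⟨fun hs => absurd hs (h1 s), fun hs => absurd hs (h1 0)⟩
      · have h1 : ∀ t : I, Φ (q, i, t) ∈ E := fun t => by
          have h2 : t ∈ (univ : Set I) := trivial
          rw [← h] at h2
          exact h2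
        exact ⟨fun _ => h1 0, fun _ => h1 s⟩
    have hD : IsClopen ((fun q : Q => Φ (q, false, 0)) ⁻¹' E) :=
      hE.preimage (hM.cont.comp (by fun_prop))
    have hinv : ∀ i q, q ∈ ((fun q : Q => Φ (q, false, 0)) ⁻¹' E) ↔
        σ i q ∈ ((fun q : Q => Φ (q, false, 0)) ⁻¹' E) := by
      intro i q
      show Φ (q, false, 0) ∈ E ↔ Φ (σ i q, false, 0) ∈ E
      rw [← hM.top q i false, hpath q i 1, hM.bot q i false]
    rcases hT _ hD hinv with h | h
    · left
      rw [Set.eq_empty_iff_forall_notMem]
      intro x hx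
      obtain ⟨⟨q, i, s⟩, rfl⟩ := hM.surj x
      rw [hpath, hM.bot q i false] at hx
      have h2 : q ∈ ((fun q : Q => Φ (q, false, 0)) ⁻¹' E) := hx
      rw [h] at h2
      exact h2
    · right
      rw [Set.eq_univ_iff_forall]
      intro x
      obtain ⟨⟨q, i, s⟩, rfl⟩ := hM.surj x
      rw [hpath, hM.bot q i false]
      have h2 : q ∈ (univ : Set Q) := trivial
      rw [← h] at h2
      exact h2
  exact { toNonempty := hne }

end Pool.Agent.N219.TC
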